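import Mathlib

open MeasureTheory Set Filter Topology
open scoped ENNReal

namespace Pool.Agent.H750F.Sky

variable {B : Type*} [MeasurableSpace B]

/-- one step of the skyscraper (identity above the roof) -/
def up (S : B ≃ᵐ B) (r : B → ℕ) (p : B × ℕ) : B × ℕ :=
  if p.2 < r p.1 then (if p.2 + 1 < r p.1 then (p.1, p.2 + 1) else (S p.1, 0)) else p

def dn (S : B ≃ᵐ B) (r : B → ℕ) (p : B × ℕ) : B × ℕ :=
  if p.2 < r p.1 then (if p.2 = 0 then (S.symm p.1, r (S.symm p.1) - 1) else (p.1, p.2 - 1)) else p

theorem dn_up (S : B ≃ᵐ B) (r : B → ℕ) (hr : ∀ b, 1 ≤ r b) (p : B × ℕ) :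
    dn S r (up S r p) = p := by
  obtain ⟨b, j⟩ := p
  by_cases h : j < r b
  · by_cases h2 : j + 1 < r b
    · simp [up, dn, h, h2]
    · have h3 : j = r b - 1 := by omega
      have h4 : 0 < r (S b) := hr _
      simp [up, dn, h, h2, h4, ← h3]
  · simp [up, dn, h]

theorem up_dn (S : B ≃ᵐ B) (r : B → ℕ) (hr : ∀ b, 1 ≤ r b) (p : B × ℕ) :
    up S r (dn S r p) = p := by
  obtain ⟨b, j⟩ := p
  by_cases h : j < r b
  · by_cases h2 : j = 0
    · subst h2
      have h4 : 1 ≤ r (S.symm b) := hr _
      have h5 : r (S.symm b) - 1 < r (S.symm b) := by omega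
      have h6 : ¬ (r (S.symm b) - 1 + 1 < r (S.symm b)) := by omega
      simp [up, dn, h, h5, h6]
    · have h5 : j - 1 < r b := by omega
      have h6 : j - 1 + 1 = j := by omega
      simp [up, dn, h, h2, h5, h6]
  · simp [up, dn, h]

theorem measurable_up (S : B ≃ᵐ B) (r : B → ℕ) (hrm : Measurable r) : Measurable (up S r) := by
  have h1 : MeasurableSet {p : B × ℕ | p.2 < r p.1} :=
    measurableSet_lt measurable_snd (hrm.comp measurable_fst)
  have h2 : MeasurableSet {p : B × ℕ | p.2 + 1 < r p.1} :=
    measurableSet_lt (measurable_snd.add_const 1) (hrm.comp measurable_fst)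
  refine Measurable.ite h1 (Measurable.ite h2 ?_ ?_) measurable_id
  · exact measurable_fst.prodMk (measurable_snd.add_const 1)
  · exact (S.measurable.comp measurable_fst).prodMk measurable_const

theorem measurable_dn (S : B ≃ᵐ B) (r : B → ℕ) (hrm : Measurable r) : Measurable (dn S r) := by
  have h1 : MeasurableSet {p : B × ℕ | p.2 < r p.1} :=
    measurableSet_lt measurable_snd (hrm.comp measurable_fst)
  have h2 : MeasurableSet {p : B × ℕ | p.2 = 0} := measurable_snd (measurableSet_singleton 0)
  refine Measurable.ite h1 (Measurable.ite h2 ?_ ?_) measurable_id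
  · refine (S.symm.measurable.comp measurable_fst).prodMk ?_
    exact (measurable_from_nat (f := fun n => n - 1)).comp
      (hrm.comp (S.symm.measurable.comp measurable_fst))
  · exact measurable_fst.prodMk ((measurable_from_nat (f := fun n => n - 1)).comp measurable_snd)

/-- the skyscraper transformation -/
def tower (S : B ≃ᵐ B) (r : B → ℕ) (hr : ∀ b, 1 ≤ r b) (hrm : Measurable r) : (B × ℕ) ≃ᵐ (B × ℕ) where
  toFun := up S r
  invFun := dn S r
  left_inv := dn_up S r hr
  right_inv := up_dn S r hr
  measurable_toFun := measurable_up S r hrm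
  measurable_invFun := measurable_dn S r hrm

/-- the measure of the skyscraper -/
noncomputable def mu (ν : Measure B) (r : B → ℕ) : Measure (B × ℕ) :=
  (ν.prod Measure.count).restrict {p | p.2 < r p.1}

instance (ν : Measure B) [SigmaFinite ν] (r : B → ℕ) : SigmaFinite (mu ν r) := by
  unfold mu; infer_instance

theorem mu_apply (ν : Measure B) [SigmaFinite ν] (r : B → ℕ) (hrm : Measurable r)
    {A : Set (B × ℕ)} (hA : MeasurableSet A) :
    mu ν r A = ∑' j : ℕ, ν {b | j < r b ∧ (b, j) ∈ A} := by
  have h1 : MeasurableSet {p : B × ℕ | p.2 < r p.1} :=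
    measurableSet_lt measurable_snd (hrm.comp measurable_fst)
  unfold mu
  rw [Measure.restrict_apply hA, Measure.prod_apply_symm (hA.inter h1), lintegral_count]
  refine tsum_congr fun j => ?_
  congr 1
  ext b
  simp [and_comm]

theorem mp_tower (ν : Measure B) [SigmaFinite ν] (S : B ≃ᵐ B) (hS : MeasurePreserving S ν ν)
    (r : B → ℕ) (hr : ∀ b, 1 ≤ r b) (hrm : Measurable r) :
    MeasurePreserving (tower S r hr hrm) (mu ν r) (mu ν r) := by
  refine ⟨(tower S r hr hrm).measurable, ?_⟩
  ext A hA
  rw [Measure.map_apply (tower S r hr hrm).measurable hA, mu_apply ν r hrm hA,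
    mu_apply ν r hrm ((tower S r hr hrm).measurable hA)]
  have hsec : ∀ j, MeasurableSet {b : B | (b, j) ∈ A} := fun j => measurable_prodMk_right hA
  have h1 : ∀ j : ℕ, ν {b | j < r b ∧ (b, j) ∈ (tower S r hr hrm) ⁻¹' A} =
      ν {b | j + 1 < r b ∧ (b, j + 1) ∈ A} + ν {b | r b = j + 1 ∧ (S b, 0) ∈ A} := by
    intro j
    rw [← measure_union]
    · congr 1
      ext b
      simp only [mem_setOf_eq, mem_preimage, mem_union]
      show (j < r b ∧ up S r (b, j) ∈ A) ↔ _
      by_cases h : j < r b
      · by_cases h2 : j + 1 < r b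
        · simp [up, h, h2]
          omega
        · have h3 : r b = j + 1 := by omega
          simp [up, h3]
      · have h3 : ¬ (j + 1 < r b) := by omega
        have h4 : ¬ (r b = j + 1) := by omega
        simp [h, h3, h4]
    · rw [Set.disjoint_left]
      intro b hb hb'
      have := hb.1
      have := hb'.1
      omega
    · exact (hrm (measurableSet_singleton (j + 1))).inter (S.measurable (hsec 0))
  have h2 : ∑' j : ℕ, ν {b | r b = j + 1 ∧ (S b, 0) ∈ A} = ν {b | 0 < r b ∧ (b, 0) ∈ A} := by
    rw [← measure_iUnion]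
    · have h3 : (⋃ j : ℕ, {b | r b = j + 1 ∧ (S b, 0) ∈ A}) = S ⁻¹' {b | (b, 0) ∈ A} := by
        ext b
        simp only [mem_iUnion, mem_setOf_eq, mem_preimage]
        constructor
        · rintro ⟨j, _, h⟩; exact h
        · intro h
          exact ⟨r b - 1, by have := hr b; omega, h⟩
      rw [h3, hS.measure_preimage (hsec 0).nullMeasurableSet]
      congr 1
      ext b
      simp only [mem_setOf_eq]
      exact ⟨fun h => ⟨hr b, h⟩, fun h => h.2⟩
    · intro i j hij
      refine Set.disjoint_left.mpr fun b hb hb' => hij ?_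
      have h5 : r b = i + 1 := hb.1
      have h6 : r b = j + 1 := hb'.1
      omega
    · intro j
      exact (hrm (measurableSet_singleton (j + 1))).inter (S.measurable (hsec 0))
  simp only [h1]
  rw [ENNReal.tsum_add, h2, tsum_eq_zero_add' (f := fun j : ℕ => ν {b | j < r b ∧ (b, j) ∈ A})
    ENNReal.summable, add_comm]

end Pool.Agent.H750F.Sky
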