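import Pool.Agent.H750F.Hilb

open MeasureTheory Set Filter Topology AddCircle

namespace Pool.Agent.H750F

variable {H K : Type*} [NormedAddCommGroup H] [InnerProductSpace ℂ H] [CompleteSpace H]
  [NormedAddCommGroup K] [InnerProductSpace ℂ K] [CompleteSpace K]


/-- Two total families with the same Gram matrix. -/
theorem gram_equiv {ι : Type*} (p : ι → K) (q : ι → H) (hg : ∀ i j, (inner ℂ (p i) (p j)) = (inner ℂ (q i) (q j)))
    (hp : (Submodule.span ℂ (range p)).topologicalClosure = ⊤)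
    (hq : (Submodule.span ℂ (range q)).topologicalClosure = ⊤) :
    ∃ V : K ≃ₗᵢ[ℂ] H, ∀ i, V (p i) = q i := by
  classical
  let e₁ : (ι →₀ ℂ) →ₗ[ℂ] K := Finsupp.linearCombination ℂ p
  let e₂ : (ι →₀ ℂ) →ₗ[ℂ] H := Finsupp.linearCombination ℂ q
  have hd₁ : DenseRange e₁ := by
    have h1 : Set.range e₁ = ((Submodule.span ℂ (range p) : Submodule ℂ K) : Set K) := by
      rw [← LinearMap.coe_range, Finsupp.range_linearCombination]
    show Dense (Set.range e₁)
    rw [h1, Submodule.dense_iff_topologicalClosure_eq_top, hp]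
  have hd₂ : DenseRange e₂ := by
    have h1 : Set.range e₂ = ((Submodule.span ℂ (range q) : Submodule ℂ H) : Set H) := by
      rw [← LinearMap.coe_range, Finsupp.range_linearCombination]
    show Dense (Set.range e₂)
    rw [h1, Submodule.dense_iff_topologicalClosure_eq_top, hq]
  have hin : ∀ a b : ι →₀ ℂ, (inner ℂ (e₁ a) (e₁ b)) = (inner ℂ (e₂ a) (e₂ b)) := by
    intro a b
    simp only [e₁, e₂, Finsupp.linearCombination_apply, Finsupp.sum, sum_inner, inner_sum,
      inner_smul_left, inner_smul_right, hg]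
  have hnorm : ∀ a, ‖e₂ ((LinearEquiv.refl ℂ (ι →₀ ℂ)) a)‖ = ‖e₁ a‖ := by
    intro a
    show ‖e₂ a‖ = ‖e₁ a‖
    rw [@norm_eq_sqrt_re_inner ℂ, @norm_eq_sqrt_re_inner ℂ, hin]
  refine ⟨LinearEquiv.extendOfIsometry (LinearEquiv.refl ℂ (ι →₀ ℂ)) e₁ e₂ hd₁ hd₂ hnorm, ?_⟩
  intro i
  have h1 := LinearEquiv.extendOfIsometry_eq (LinearEquiv.refl ℂ (ι →₀ ℂ)) e₁ e₂ hd₁ hd₂ hnorm
    (Finsupp.single i 1)
  simpa [e₁, e₂] using h1

theorem eq_of_inner (q : ℤ → H) (hq : (Submodule.span ℂ (range q)).topologicalClosure = ⊤)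
    (x y : H) (h : ∀ l, (inner ℂ x (q l)) = (inner ℂ y (q l))) : x = y := by
  have hd : Dense ((Submodule.span ℂ (range q) : Submodule ℂ H) : Set H) := by
    rw [Submodule.dense_iff_topologicalClosure_eq_top, hq]
  refine hd.eq_of_inner_left (𝕜 := ℂ) ?_
  intro v hv
  induction hv using Submodule.span_induction with
  | mem z hz => obtain ⟨l, rfl⟩ := hz; exact h l
  | zero => simp
  | add a b _ _ ha hb => rw [inner_add_right, inner_add_right, ha, hb]
  | smul c a _ ha => rw [inner_smul_right, inner_smul_right, ha]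

abbrev 𝕋 := AddCircle (1 : ℝ)

noncomputable abbrev hm : Measure 𝕋 := haarAddCircle

/-- weighted measure -/
noncomputable def wm (ρ : 𝕋 → ℝ) : Measure 𝕋 := hm.withDensity (fun x => ENNReal.ofReal (ρ x))

theorem wm_finite (ρ : 𝕋 → ℝ) (hρ : Integrable ρ hm) : IsFiniteMeasure (wm ρ) :=
  isFiniteMeasure_withDensity_ofReal hρ.2

theorem integral_wm (ρ : 𝕋 → ℝ) (hρ : Integrable ρ hm) (hpos : ∀ᵐ x ∂hm, 0 < ρ x) (F : 𝕋 → ℂ) :
    ∫ x, F x ∂(wm ρ) = ∫ x, F x * ρ x ∂hm := by
  unfold wm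
  rw [integral_withDensity_eq_integral_toReal_smul₀ hρ.1.aemeasurable.ennreal_ofReal
    (Eventually.of_forall fun x => ENNReal.ofReal_lt_top)]
  refine integral_congr_ae ?_
  filter_upwards [hpos] with x hx
  rw [ENNReal.toReal_ofReal hx.le, Complex.real_smul, mul_comm]

theorem memLp_wm (ρ : 𝕋 → ℝ) (hρ : Integrable ρ hm) (hpos : ∀ᵐ x ∂hm, 0 < ρ x) (k : ℤ) :
    MemLp (fun x : 𝕋 => fourier k x * (((√(ρ x))⁻¹ : ℝ) : ℂ)) 2 (wm ρ) := by
  have hac : wm ρ ≪ hm := withDensity_absolutelyContinuous _ _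
  have hmeas : AEStronglyMeasurable (fun x : 𝕋 => fourier k x * (((√(ρ x))⁻¹ : ℝ) : ℂ)) (wm ρ) := by
    refine AEStronglyMeasurable.mono_ac hac ?_
    refine (fourier k).continuous.aestronglyMeasurable.mul ?_
    have h1 : AEMeasurable (fun x => (((√(ρ x))⁻¹ : ℝ) : ℂ)) hm :=
      Complex.measurable_ofReal.comp_aemeasurable
        ((Real.continuous_sqrt.measurable.comp_aemeasurable hρ.1.aemeasurable).inv)
    exact h1.aestronglyMeasurable
  rw [memLp_two_iff_integrable_sq_norm hmeas]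
  unfold wm
  rw [integrable_withDensity_iff_integrable_smul₀' hρ.1.aemeasurable.ennreal_ofReal
    (Eventually.of_forall fun x => ENNReal.ofReal_lt_top)]
  refine (integrable_const (1 : ℝ)).congr ?_
  filter_upwards [hpos] with x hx
  have h1 : ‖fourier k x‖ = 1 := Circle.norm_coe _
  rw [norm_mul, h1, one_mul, ENNReal.toReal_ofReal hx.le, Complex.norm_real, smul_eq_mul,
    Real.norm_eq_abs, sq_abs, inv_pow, Real.sq_sqrt hx.le, mul_inv_cancel₀ hx.ne']

theorem memLp_one (ρ : 𝕋 → ℝ) (hρ : Integrable ρ hm) (k : ℤ) :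
    MemLp (fun x : 𝕋 => fourier k x) 2 (wm ρ) := by
  have := wm_finite ρ hρ
  refine MemLp.of_bound (fourier k).continuous.aestronglyMeasurable 1 (Eventually.of_forall ?_)
  intro x
  exact (Circle.norm_coe _).le

theorem fourier_mul_neg (k l : ℤ) (x : 𝕋) :
    (starRingEnd ℂ) (fourier k x) * fourier l x = fourier (l - k) x := by
  rw [← fourier_neg, ← fourier_add]
  congr 1
  ring

theorem span_fourier_wm (ρ : 𝕋 → ℝ) (hρ : Integrable ρ hm) :
    (Submodule.span ℂ (range fun k : ℤ => (memLp_one ρ hρ k).toLp _)).topologicalClosure = ⊤ := by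
  have := wm_finite ρ hρ
  have h1 := (ContinuousMap.toLp_denseRange ℂ (wm ρ) ℂ (p := 2) (by simp)).topologicalClosure_map_submodule
    (span_fourier_closure_eq_top (T := (1:ℝ)))
  rw [Submodule.map_span, ← range_comp] at h1
  exact h1

set_option maxHeartbeats 1600000 in
/-- **From a positive spectral density to an orthonormal basis.** -/
theorem exists_basis (U : H ≃ₗᵢ[ℂ] H) (f : H) (hZ : Z U f = ⊤) (ρ : 𝕋 → ℝ)
    (hρ : Integrable ρ hm) (hpos : ∀ᵐ x ∂hm, 0 < ρ x)
    (hcor : ∀ k : ℤ, (inner ℂ ((U ^ k) f) f) = ∫ x, fourier (-k) x * ρ x ∂hm) :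
    ∃ g : H, (∀ l : ℤ, (inner ℂ g ((U ^ l) f)) = ∫ x, fourier l x * ((√(ρ x) : ℝ) : ℂ) ∂hm) ∧
      ∃ b : HilbertBasis ℤ ℂ H, ∀ k, b k = (U ^ k) g := by
  have := wm_finite ρ hρ
  let q : ℤ → Lp ℂ 2 (wm ρ) := fun k => (memLp_one ρ hρ k).toLp _
  have hgram : ∀ i j, (inner ℂ (q i) (q j)) = (inner ℂ ((U ^ i) f) ((U ^ j) f)) := by
    intro i j
    rw [inner_zpow, hcor, L2.inner_def, ← integral_wm ρ hρ hpos]
    refine integral_congr_ae ?_
    filter_upwards [(memLp_one ρ hρ i).coeFn_toLp, (memLp_one ρ hρ j).coeFn_toLp] with x hx hy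
    rw [RCLike.inner_apply, hx, hy, mul_comm, fourier_mul_neg]
    congr 2
    ring_nf
  obtain ⟨V, hV⟩ := gram_equiv q (fun k : ℤ => (U ^ k) f) hgram (span_fourier_wm ρ hρ) hZ
  let G : ℤ → Lp ℂ 2 (wm ρ) := fun k => (memLp_wm ρ hρ hpos k).toLp _
  have hGq : ∀ k l, (inner ℂ (G k) (q l)) = ∫ x, fourier (l - k) x * ((√(ρ x) : ℝ) : ℂ) ∂hm := by
    intro k l
    have h1 : ∫ x, fourier (l - k) x * ((√(ρ x) : ℝ) : ℂ) ∂hm =
        ∫ x, fourier (l - k) x * (((√(ρ x))⁻¹ : ℝ) : ℂ) ∂(wm ρ) := by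
      rw [integral_wm ρ hρ hpos]
      refine integral_congr_ae ?_
      filter_upwards [hpos] with x hx
      rw [mul_assoc, ← Complex.ofReal_mul]
      congr 2
      have h2 : √(ρ x) * √(ρ x) = ρ x := Real.mul_self_sqrt hx.le
      have h3 : 0 < √(ρ x) := Real.sqrt_pos.mpr hx
      field_simp
      nlinarith [h2]
    rw [h1, L2.inner_def]
    refine integral_congr_ae ?_
    filter_upwards [(memLp_wm ρ hρ hpos k).coeFn_toLp, (memLp_one ρ hρ l).coeFn_toLp] with x hx hy
    rw [RCLike.inner_apply, hx, hy, map_mul, Complex.conj_ofReal, ← fourier_mul_neg]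
    ring
  have hGG : ∀ k l, (inner ℂ (G k) (G l)) = if k = l then 1 else 0 := by
    intro k l
    have h1 : (inner ℂ (G k) (G l)) = ∫ x, fourier (l - k) x * (((ρ x)⁻¹ : ℝ) : ℂ) ∂(wm ρ) := by
      rw [L2.inner_def]
      have hpos' : ∀ᵐ x ∂(wm ρ), 0 < ρ x :=
        (withDensity_absolutelyContinuous _ _ : wm ρ ≪ hm).ae_le hpos
      refine integral_congr_ae ?_
      filter_upwards [(memLp_wm ρ hρ hpos k).coeFn_toLp, (memLp_wm ρ hρ hpos l).coeFn_toLp,
        hpos'] with x hx hy hx0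
      rw [RCLike.inner_apply, hx, hy, map_mul, Complex.conj_ofReal, ← fourier_mul_neg]
      have h2 : ((√(ρ x))⁻¹ : ℝ) * (√(ρ x))⁻¹ = (ρ x)⁻¹ := by
        rw [← mul_inv, Real.mul_self_sqrt hx0.le]
      rw [← h2]
      push_cast
      ring
    rw [h1, integral_wm ρ hρ hpos]
    have h3 : ∫ x, fourier (l - k) x * (((ρ x)⁻¹ : ℝ) : ℂ) * (ρ x : ℂ) ∂hm =
        ∫ x, fourier (l - k) x ∂hm := by
      refine integral_congr_ae ?_
      filter_upwards [hpos] with x hx
      rw [mul_assoc, ← Complex.ofReal_mul, inv_mul_cancel₀ hx.ne']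
      simp
    rw [h3]
    have h4 := (orthonormal_iff_ite.mp (orthonormal_fourier (T := (1:ℝ)))) k l
    rw [ContinuousMap.inner_toLp] at h4
    rw [← h4]
    refine integral_congr_ae (Eventually.of_forall fun x => ?_)
    simp only [← fourier_mul_neg]
    ring
  have hstep : ∀ k, (U ^ k) (V (G 0)) = V (G k) := by
    intro k
    refine eq_of_inner (fun l : ℤ => (U ^ l) f) hZ _ _ ?_
    intro l
    show (inner ℂ ((U ^ k) (V (G 0))) ((U ^ l) f)) = (inner ℂ (V (G k)) ((U ^ l) f))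
    have h1 : (inner ℂ ((U ^ k) (V (G 0))) ((U ^ l) f)) = (inner ℂ (V (G 0)) ((U ^ (l - k)) f)) := by
      have h2 : (U ^ l) f = (U ^ k) ((U ^ (l - k)) f) := by
        rw [← mul_ap, ← zpow_add]; congr 2; ring
      rw [h2, LinearIsometryEquiv.inner_map_map]
    rw [h1, ← hV (l - k), ← hV l, LinearIsometryEquiv.inner_map_map,
      LinearIsometryEquiv.inner_map_map, hGq, hGq, sub_zero]
  have hon : Orthonormal ℂ G := orthonormal_iff_ite.mpr hGG
  have htot : (Submodule.span ℂ (range G))ᗮ = ⊥ := by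
    rw [Submodule.eq_bot_iff]
    intro h hh
    have h1 : ∀ k, (inner ℂ (G k) h) = 0 := fun k =>
      (Submodule.mem_orthogonal _ _).mp hh _ (Submodule.subset_span ⟨k, rfl⟩)
    have hwm : MemLp (fun x => h x * ((√(ρ x) : ℝ) : ℂ)) 2 hm := by
      have hmeas : AEStronglyMeasurable (fun x => h x * ((√(ρ x) : ℝ) : ℂ)) hm := by
        refine (Lp.stronglyMeasurable h).aestronglyMeasurable.mul ?_
        exact (Complex.measurable_ofReal.comp_aemeasurable
          (Real.continuous_sqrt.measurable.comp_aemeasurable hρ.1.aemeasurable)).aestronglyMeasurable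
      rw [memLp_two_iff_integrable_sq_norm hmeas]
      have h2 : Integrable (fun x => ‖h x‖ ^ 2) (wm ρ) :=
        (memLp_two_iff_integrable_sq_norm (Lp.aestronglyMeasurable h)).mp (Lp.memLp h)
      unfold wm at h2
      rw [integrable_withDensity_iff_integrable_smul₀' hρ.1.aemeasurable.ennreal_ofReal
        (Eventually.of_forall fun x => ENNReal.ofReal_lt_top)] at h2
      refine h2.congr ?_
      filter_upwards [hpos] with x hx
      rw [norm_mul, mul_pow, Complex.norm_real, Real.norm_eq_abs, sq_abs, Real.sq_sqrt hx.le,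
        ENNReal.toReal_ofReal hx.le, smul_eq_mul]
      exact mul_comm _ _
    have hw0 : hwm.toLp _ = 0 := by
      refine eq_of_inner (H := Lp ℂ 2 hm) (fun l : ℤ => fourierLp 2 l)
        (span_fourierLp_closure_eq_top (by simp)) _ _ ?_
      intro l
      rw [inner_zero_left, ← inner_conj_symm, map_eq_zero_iff _ (starRingEnd ℂ).injective,
        L2.inner_def]
      have h2 := h1 l
      rw [L2.inner_def] at h2
      have h3 : ∫ x, (inner ℂ ((G l : 𝕋 → ℂ) x) (h x)) ∂(wm ρ) =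
          ∫ x, (h x * (starRingEnd ℂ) (fourier l x)) * (((√(ρ x))⁻¹ : ℝ) : ℂ) ∂(wm ρ) := by
        refine integral_congr_ae ?_
        filter_upwards [(memLp_wm ρ hρ hpos l).coeFn_toLp] with x hx
        rw [RCLike.inner_apply, hx, map_mul, Complex.conj_ofReal]
        ring
      rw [h3, integral_wm ρ hρ hpos] at h2
      rw [← h2]
      refine integral_congr_ae ?_
      filter_upwards [hwm.coeFn_toLp, coeFn_fourierLp 2 l, hpos] with x hx hy hx0
      rw [RCLike.inner_apply, hx, hy]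
      have h4 : (((√(ρ x))⁻¹ : ℝ) : ℂ) * (ρ x : ℂ) = ((√(ρ x) : ℝ) : ℂ) := by
        rw [← Complex.ofReal_mul]
        congr 1
        have h5 : √(ρ x) * √(ρ x) = ρ x := Real.mul_self_sqrt hx0.le
        have h6 : 0 < √(ρ x) := Real.sqrt_pos.mpr hx0
        field_simp
        nlinarith [h5]
      rw [mul_assoc (h x * _), h4]
      ring
    have h7 : ∀ᵐ x ∂hm, h x = 0 := by
      have h8 := Lp.eq_zero_iff_ae_eq_zero.mp hw0
      filter_upwards [h8, hwm.coeFn_toLp, hpos] with x hx hy hx0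
      rw [hy] at hx
      have h6 : 0 < √(ρ x) := Real.sqrt_pos.mpr hx0
      rcases mul_eq_zero.mp hx with h9 | h9
      · exact h9
      · exact absurd (Complex.ofReal_eq_zero.mp h9) h6.ne'
    rw [Lp.eq_zero_iff_ae_eq_zero]
    exact (withDensity_absolutelyContinuous _ _ : wm ρ ≪ hm).ae_le h7
  have honV : Orthonormal ℂ (fun k : ℤ => (U ^ k) (V (G 0))) := by
    rw [orthonormal_iff_ite]
    intro i j
    rw [hstep, hstep, LinearIsometryEquiv.inner_map_map]
    exact hGG i j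
  have htotV : (Submodule.span ℂ (range fun k : ℤ => (U ^ k) (V (G 0))))ᗮ = ⊥ := by
    rw [Submodule.eq_bot_iff]
    intro h hh
    have h1 : V.symm h ∈ (Submodule.span ℂ (range G))ᗮ := by
      rw [Submodule.mem_orthogonal]
      intro u hu
      induction hu using Submodule.span_induction with
      | mem z hz =>
        obtain ⟨k, rfl⟩ := hz
        have h2 := (Submodule.mem_orthogonal _ _).mp hh _ (Submodule.subset_span ⟨k, rfl⟩)
        simp only [hstep] at h2
        rw [← h2, ← LinearIsometryEquiv.inner_map_map V, LinearIsometryEquiv.apply_symm_apply]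
      | zero => simp
      | add a b _ _ ha hb => rw [inner_add_left, ha, hb, add_zero]
      | smul c a _ ha => rw [inner_smul_left, ha, mul_zero]
    rw [htot] at h1
    have h3 : V.symm h = 0 := h1
    rw [← V.apply_symm_apply h, h3, map_zero]
  refine ⟨V (G 0), ?_, HilbertBasis.mkOfOrthogonalEqBot honV htotV, ?_⟩
  · intro l
    rw [← hV l, LinearIsometryEquiv.inner_map_map, hGq, sub_zero]
  · intro k
    rw [HilbertBasis.coe_mkOfOrthogonalEqBot]

end Pool.Agent.H750F
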