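import Pool.Agent.H750F.Sky1
import Pool.Agent.H750F.Spec

open MeasureTheory Set Filter Topology
open scoped ENNReal

namespace Pool.Agent.H750F.Sky

variable {X : Type*} [MeasurableSpace X] {μ : Measure X}


/-- the Koopman operator `h ↦ h ∘ T⁻¹` -/
noncomputable def koop (T : X ≃ᵐ X) (hT : MeasurePreserving T μ μ) : Lp ℂ 2 μ ≃ₗᵢ[ℂ] Lp ℂ 2 μ :=
  LinearIsometryEquiv.ofSurjective
    (Lp.compMeasurePreservingₗᵢ (E := ℂ) (p := 2) ℂ T.symm (hT.symm T)) (by
      intro h
      refine ⟨Lp.compMeasurePreserving T hT h, ?_⟩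
      show Lp.compMeasurePreserving T.symm (hT.symm T) (Lp.compMeasurePreserving T hT h) = h
      rw [← Lp.compMeasurePreserving_comp_apply]
      have h1 : (T : X → X) ∘ T.symm = id := by ext x; simp
      have h2 : ∀ (F : X → X) (hF : MeasurePreserving F μ μ), F = id →
          Lp.compMeasurePreserving F hF h = h := by
        rintro F hF rfl
        exact Lp.compMeasurePreserving_id_apply h
      exact h2 _ _ h1)

theorem koop_apply (T : X ≃ᵐ X) (hT : MeasurePreserving T μ μ) (h : Lp ℂ 2 μ) :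
    koop T hT h = Lp.compMeasurePreserving T.symm (hT.symm T) h := rfl

open Classical in
/-- indicator vectors -/
noncomputable def ind (μ : Measure X) (E : Set X) : Lp ℂ 2 μ :=
  if h : MeasurableSet E ∧ μ E ≠ ∞ then indicatorConstLp 2 h.1 h.2 1 else 0

theorem ind_eq {E : Set X} (h1 : MeasurableSet E) (h2 : μ E ≠ ∞) :
    ind μ E = indicatorConstLp 2 h1 h2 1 := by
  rw [ind, dif_pos ⟨h1, h2⟩]

theorem ind_inner {E F : Set X} (h1 : MeasurableSet E) (h2 : μ E ≠ ∞) (h3 : MeasurableSet F)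
    (h4 : μ F ≠ ∞) : (inner ℂ (ind μ E) (ind μ F)) = (μ.real (E ∩ F) : ℂ) := by
  rw [ind_eq h1 h2, ind_eq h3 h4]
  exact L2.inner_indicatorConstLp_one_indicatorConstLp_one h1 h3 h2 h4

theorem ind_union {E F : Set X} (h1 : MeasurableSet E) (h2 : μ E ≠ ∞) (h3 : MeasurableSet F)
    (h4 : μ F ≠ ∞) (hd : Disjoint E F) : ind μ (E ∪ F) = ind μ E + ind μ F := by
  rw [ind_eq h1 h2, ind_eq h3 h4, ind_eq (h1.union h3) (by finiteness)]
  exact indicatorConstLp_disjoint_union h1 h3 h2 h4 hd 1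

theorem koop_ind (T : X ≃ᵐ X) (hT : MeasurePreserving T μ μ) (E : Set X) :
    koop T hT (ind μ E) = ind μ (T.symm ⁻¹' E) := by
  by_cases h : MeasurableSet E ∧ μ E ≠ ∞
  · rw [ind_eq h.1 h.2, koop_apply, Lp.indicatorConstLp_compMeasurePreserving, ind_eq]
  · rw [ind, dif_neg h, map_zero, ind, dif_neg]
    rintro ⟨h1, h2⟩
    have h3 : MeasurableSet E := (T.symm.measurableSet_preimage).mp h1
    refine h ⟨h3, ?_⟩
    rwa [(hT.symm T).measure_preimage h3.nullMeasurableSet] at h2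

/-- the permutation -/
def pm (T : X ≃ᵐ X) : Equiv.Perm X := T.toEquiv

/-- `sh T m E = T^m E` -/
def sh (T : X ≃ᵐ X) (m : ℤ) (E : Set X) : Set X := ((pm T) ^ (-m)) ⁻¹' E

theorem sh_zero (T : X ≃ᵐ X) (E : Set X) : sh T 0 E = E := by simp [sh]

theorem sh_add (T : X ≃ᵐ X) (m n : ℤ) (E : Set X) : sh T (m + n) E = sh T m (sh T n E) := by
  unfold sh
  rw [← preimage_comp]
  have h : ((pm T) ^ (-(m + n)) : Equiv.Perm X) = (pm T) ^ (-n) * (pm T) ^ (-m) := by
    rw [← zpow_add]; congr 1; ring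
  rw [h]; rfl

theorem sh_one (T : X ≃ᵐ X) (E : Set X) : sh T 1 E = T.symm ⁻¹' E := by
  unfold sh
  rw [zpow_neg, zpow_one]; rfl

theorem sh_neg_one (T : X ≃ᵐ X) (E : Set X) : sh T (-1) E = T ⁻¹' E := by
  unfold sh
  rw [neg_neg, zpow_one]; rfl

theorem measurable_sh (T : X ≃ᵐ X) (m : ℤ) {E : Set X} (hE : MeasurableSet E) :
    MeasurableSet (sh T m E) := by
  induction m with
  | zero => rwa [sh_zero]
  | succ n ih => rw [add_comm, sh_add, sh_one]; exact T.symm.measurable ih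
  | pred n ih =>
    have : (-(n : ℤ) - 1) = -1 + -n := by ring
    rw [this, sh_add, sh_neg_one]; exact T.measurable ih

theorem measure_sh (T : X ≃ᵐ X) (hT : MeasurePreserving T μ μ) (m : ℤ) {E : Set X}
    (hE : MeasurableSet E) : μ (sh T m E) = μ E := by
  induction m with
  | zero => rw [sh_zero]
  | succ n ih =>
    rw [add_comm, sh_add, sh_one,
      (hT.symm T).measure_preimage (measurable_sh T n hE).nullMeasurableSet, ih]
  | pred n ih =>
    have : (-(n : ℤ) - 1) = -1 + -n := by ring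
    rw [this, sh_add, sh_neg_one, hT.measure_preimage (measurable_sh T (-n) hE).nullMeasurableSet, ih]

theorem sh_inter (T : X ≃ᵐ X) (m : ℤ) (E F : Set X) : sh T m (E ∩ F) = sh T m E ∩ sh T m F := rfl

theorem sh_mono (T : X ≃ᵐ X) (m : ℤ) {E F : Set X} (h : E ⊆ F) : sh T m E ⊆ sh T m F :=
  preimage_mono h

theorem koop_zpow_ind (T : X ≃ᵐ X) (hT : MeasurePreserving T μ μ) (m : ℤ) (E : Set X) :
    ((koop T hT) ^ m) (ind μ E) = ind μ (sh T m E) := by
  have h1 : ∀ E, ((koop T hT)⁻¹) (ind μ E) = ind μ (sh T (-1) E) := by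
    intro E
    have h2 : ind μ E = koop T hT (ind μ (sh T (-1) E)) := by
      rw [koop_ind, ← sh_one, ← sh_add]; norm_num [sh_zero]
    conv_lhs => rw [h2]
    exact (koop T hT).symm_apply_apply _
  induction m with
  | zero => rw [zpow_zero, sh_zero]; rfl
  | succ n ih =>
    rw [add_comm, zpow_add, mul_ap, ih, zpow_one, koop_ind, ← sh_one, ← sh_add]
  | pred n ih =>
    have : (-(n : ℤ) - 1) = -1 + -n := by ring
    rw [this, zpow_add, mul_ap, ih, zpow_neg_one, h1, ← sh_add]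

theorem mem_sh_iff (T : X ≃ᵐ X) (m : ℤ) (E : Set X) (x : X) :
    x ∈ sh T m E ↔ ∃ y ∈ E, ((pm T) ^ m) y = x := by
  unfold sh
  constructor
  · intro h
    refine ⟨((pm T) ^ (-m)) x, h, ?_⟩
    rw [← Equiv.Perm.mul_apply, ← zpow_add]; simp
  · rintro ⟨y, hy, rfl⟩
    show ((pm T) ^ (-m)) (((pm T) ^ m) y) ∈ E
    rw [← Equiv.Perm.mul_apply, ← zpow_add]; simpa using hy

end Pool.Agent.H750F.Sky
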