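import Mathlib

open MeasureTheory Set Filter Topology

namespace Pool.Agent.H750F

variable {X Y : Type*} [MeasurableSpace X] [MeasurableSpace Y]

/-- Every s-finite measure on an uncountable standard Borel space has an uncountable null set. -/
theorem exists_null_uncountable [StandardBorelSpace X] (μ : Measure X) [SFinite μ]
    (hX : ¬ Countable X) : ∃ K : Set X, MeasurableSet K ∧ ¬ K.Countable ∧ μ K = 0 := by
  have hR : ¬ Countable ℝ := not_countable_iff.mpr inferInstance
  have hRR : ¬ Countable (ℝ × ℝ) := fun h => hR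
    (Function.Injective.countable (f := fun x : ℝ => (x, (0:ℝ)))
      (fun a b hab => (Prod.mk.inj hab).1))
  let e : X ≃ᵐ ℝ × ℝ := PolishSpace.measurableEquivOfNotCountable hX hRR
  let A : ℝ → Set X := fun t => e ⁻¹' {p | p.1 = t}
  have hA : ∀ t, MeasurableSet (A t) := fun t =>
    e.measurable (measurable_fst (measurableSet_singleton t))
  have hd : Pairwise (Function.onFun Disjoint A) := by
    intro s t hst
    refine Set.disjoint_left.mpr fun x hx hx' => hst ?_
    exact (show (e x).1 = s from hx).symm.trans (show (e x).1 = t from hx')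
  have hc := Measure.countable_meas_pos_of_disjoint_iUnion (μ := μ) hA hd
  obtain ⟨t, ht⟩ : ∃ t, t ∉ {i | 0 < μ (A i)} := by
    by_contra h
    push Not at h
    exact hR (countable_univ_iff.mp (hc.mono (fun t _ => h t)))
  refine ⟨A t, hA t, ?_, by simpa using ht⟩
  intro hcount
  have : (range fun s : ℝ => e.symm (t, s)).Countable := by
    refine hcount.mono ?_
    rintro _ ⟨s, rfl⟩
    show (e (e.symm (t, s))).1 = t
    simp
  have hinj : Function.Injective (fun s : ℝ => e.symm (t, s)) := by
    intro a b hab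
    have := e.symm.injective hab
    exact (Prod.mk.inj this).2
  exact hR (countable_univ_iff.mp ((countable_of_injective_of_countable_image hinj.injOn
    (by simpa [image_univ] using this))))

/-- An isomorphism mod null sets can be replaced by a Borel isomorphism. -/
theorem genuine [StandardBorelSpace X] [StandardBorelSpace Y] (μ : Measure X) (ν : Measure Y)
    [SFinite μ] [SFinite ν] (hX : ¬ Countable X) (hY : ¬ Countable Y) (h : X → Y)
    (hm : MeasurePreserving h μ ν) (X₁ : Set X) (hX₁ : MeasurableSet X₁) (hX₁0 : μ X₁ᶜ = 0)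
    (hinj : InjOn h X₁) : ∃ Φ : X ≃ᵐ Y, MeasurePreserving Φ μ ν := by
  classical
  obtain ⟨K, hK, hKc, hK0⟩ := exists_null_uncountable μ hX
  obtain ⟨K', hK', hKc', hK0'⟩ := exists_null_uncountable ν hY
  set X₂ : Set X := (X₁ \ K) \ h ⁻¹' K' with hX₂def
  have hX₂ : MeasurableSet X₂ := (hX₁.diff hK).diff (hm.measurable hK')
  have hX₂0 : μ X₂ᶜ = 0 := by
    have : X₂ᶜ ⊆ X₁ᶜ ∪ K ∪ h ⁻¹' K' := by
      intro x hx
      by_contra hcon
      simp only [mem_union, mem_compl_iff, not_or, not_not] at hcon
      exact hx ⟨⟨hcon.1.1, hcon.1.2⟩, hcon.2⟩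
    refine measure_mono_null this ?_
    refine measure_union_null (measure_union_null hX₁0 hK0) ?_
    rw [hm.measure_preimage hK'.nullMeasurableSet]; exact hK0'
  have : StandardBorelSpace X₂ := hX₂.standardBorel
  have : StandardBorelSpace (X₂ᶜ : Set X) := hX₂.compl.standardBorel
  let g : X₂ → Y := fun x => h x
  have hg : Measurable g := hm.measurable.comp measurable_subtype_coe
  have hgi : Function.Injective g := by
    intro a b hab
    exact Subtype.ext (hinj a.2.1.1 b.2.1.1 hab)
  have hge : MeasurableEmbedding g := hg.measurableEmbedding hgi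
  have hY₂ : MeasurableSet (range g) := hge.measurableSet_range
  have : StandardBorelSpace ((range g)ᶜ : Set Y) := hY₂.compl.standardBorel
  have hcX : ¬ Countable (X₂ᶜ : Set X) := by
    rw [Set.countable_coe_iff]
    intro hc
    exact hKc (hc.mono (show K ⊆ X₂ᶜ from fun x hx hx2 => hx2.1.2 hx))
  have hcY : ¬ Countable ((range g)ᶜ : Set Y) := by
    rw [Set.countable_coe_iff]
    intro hc
    refine hKc' (hc.mono ?_)
    rintro y hy ⟨x, rfl⟩
    exact x.2.2 hy
  let e₂ : X₂ ≃ᵐ range g := hge.equivRange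
  let e₃ : (X₂ᶜ : Set X) ≃ᵐ ((range g)ᶜ : Set Y) := PolishSpace.measurableEquivOfNotCountable hcX hcY
  let Φ : X ≃ᵐ Y := (MeasurableEquiv.sumCompl hX₂).symm.trans
    ((MeasurableEquiv.sumCongr e₂ e₃).trans (MeasurableEquiv.sumCompl hY₂))
  have hΦ : ∀ x ∈ X₂, Φ x = h x := by
    intro x hx
    have h1 : (MeasurableEquiv.sumCompl hX₂).symm x = Sum.inl ⟨x, hx⟩ := by
      rw [MeasurableEquiv.symm_apply_eq]
      rfl
    show (MeasurableEquiv.sumCompl hY₂) ((MeasurableEquiv.sumCongr e₂ e₃)
      ((MeasurableEquiv.sumCompl hX₂).symm x)) = h x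
    rw [h1]
    show ((e₂ ⟨x, hx⟩ : range g) : Y) = h x
    simp [e₂, g]
  refine ⟨Φ, Φ.measurable, ?_⟩
  rw [← hm.map_eq]
  refine Measure.map_congr ?_
  rw [Filter.EventuallyEq, ae_iff]
  refine measure_mono_null ?_ hX₂0
  intro x hx hx2
  exact hx (hΦ x hx2)

/-- distribution function of a measure without atoms with finite left tails -/
theorem cdf_map (ν : Measure ℝ) [NullSingletonClass ν] (hfin : ∀ t, ν (Iic t) < ⊤) (htop : ν univ = ⊤) :
    ∃ F : ℝ → ℝ, Monotone F ∧ MeasurePreserving F ν (volume.restrict (Ici 0)) := by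
  let F : ℝ → ℝ := fun t => (ν (Iic t)).toReal
  have hof : ∀ t, ENNReal.ofReal (F t) = ν (Iic t) := fun t => ENNReal.ofReal_toReal (hfin t).ne
  have hmono : Monotone F := fun a b hab =>
    ENNReal.toReal_mono (hfin b).ne (measure_mono (Iic_subset_Iic.mpr hab))
  have hnn : ∀ t, 0 ≤ F t := fun t => ENNReal.toReal_nonneg
  have hlf : IsLocallyFiniteMeasure ν := by
    refine ⟨fun x => ⟨Iic (x + 1), Iic_mem_nhds (by linarith), hfin _⟩⟩
  have hdiff : ∀ a b, a ≤ b → F b - F a = ∫ x in a..b, (1 : ℝ) ∂ν := by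
    intro a b hab
    rw [intervalIntegral.integral_of_le hab]
    simp only [integral_const, smul_eq_mul, mul_one, measureReal_restrict_apply_univ]
    have h1 : Iic a ∪ Ioc a b = Iic b := Iic_union_Ioc_eq_Iic hab
    have h2 : Disjoint (Iic a) (Ioc a b) := by
      rw [Set.disjoint_left]; intro x hx hx'; exact absurd hx (not_le.mpr hx'.1)
    have h3 : ν.real (Iic b) = ν.real (Iic a) + ν.real (Ioc a b) := by
      rw [← h1, measureReal_union h2 measurableSet_Ioc (hfin a).ne
        (ne_top_of_le_ne_top (hfin b).ne (measure_mono (fun x hx => hx.2)))]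
    show ν.real (Iic b) - ν.real (Iic a) = _
    rw [h3]; ring
  have hcont : Continuous F := by
    have hc := intervalIntegral.continuous_primitive (μ := ν) (f := fun _ : ℝ => (1:ℝ))
      (fun a b => intervalIntegrable_const) 0
    have : F = fun t => F 0 + ∫ x in (0:ℝ)..t, (1:ℝ) ∂ν := by
      funext t
      rcases le_total 0 t with h | h
      · rw [← hdiff 0 t h]; ring
      · rw [intervalIntegral.integral_symm, ← hdiff t 0 h]; ring
    rw [this]
    exact continuous_const.add hc
  have hbot : Tendsto F atBot (𝓝 0) := by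
    have h1 : Tendsto (fun t => ν (Iic t)) atBot (𝓝 (ν (⋂ t : ℝ, Iic t))) :=
      tendsto_measure_iInter_atBot (fun t => measurableSet_Iic.nullMeasurableSet)
        (fun a b hab => Iic_subset_Iic.mpr hab) ⟨0, (hfin 0).ne⟩
    have h2 : (⋂ t : ℝ, Iic t) = ∅ := by
      rw [eq_empty_iff_forall_notMem]
      intro x hx
      have := mem_iInter.mp hx (x - 1)
      simp at this
      linarith
    rw [h2, measure_empty] at h1
    have h4 := (ENNReal.tendsto_toReal (a := 0) (by simp)).comp h1
    rw [ENNReal.toReal_zero] at h4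
    exact h4
  have htop' : Tendsto F atTop atTop := by
    have h1 : Tendsto (fun t => ν (Iic t)) atTop (𝓝 ⊤) := by
      have := tendsto_measure_Iic_atTop ν
      rwa [htop] at this
    rw [tendsto_atTop_atTop]
    intro b
    have h2 := (ENNReal.tendsto_nhds_top_iff_nnreal.mp h1) (b.toNNReal)
    obtain ⟨i, hi⟩ := h2.exists_forall_of_atTop
    refine ⟨i, fun a ha => ?_⟩
    have h3 := hi a ha
    rw [← hof a] at h3
    have h4 : (b.toNNReal : ENNReal) = ENNReal.ofReal b := rfl
    rw [h4] at h3
    exact (ENNReal.lt_ofReal_iff_toReal_lt (by simp)).mp h3 |>.le |>.trans' (by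
      simp [ENNReal.toReal_ofReal'])
  have hIio : ∀ c : ℝ, ν (F ⁻¹' Iio c) = ENNReal.ofReal c := by
    intro c
    rcases le_or_gt c 0 with hc | hc
    · have : F ⁻¹' Iio c = ∅ := by
        rw [eq_empty_iff_forall_notMem]
        intro x hx
        have h1 : F x < c := hx
        linarith [hnn x]
      rw [this, measure_empty, ENNReal.ofReal_of_nonpos hc]
    · obtain ⟨s, hs⟩ : c ∈ range F := by
        have h1 : ∃ x, F x ≤ c := by
          obtain ⟨x, hx⟩ := (hbot.eventually (Iio_mem_nhds hc)).exists
          exact ⟨x, le_of_lt hx⟩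
        have h2 : ∃ x, c ≤ F x := (htop'.eventually (eventually_ge_atTop c)).exists
        exact mem_range_of_exists_le_of_exists_ge hcont h1 h2
      have hclosed : IsClosed (F ⁻¹' Ici c) := isClosed_Ici.preimage hcont
      have hne : (F ⁻¹' Ici c).Nonempty := ⟨s, hs.ge⟩
      have hbdd : BddBelow (F ⁻¹' Ici c) := by
        obtain ⟨x, hx⟩ := (hbot.eventually (Iio_mem_nhds hc)).exists
        refine ⟨x, fun y hy => ?_⟩
        by_contra hcon
        have h1 : F y ≤ F x := hmono (not_le.mp hcon).le
        exact absurd (lt_of_le_of_lt h1 hx) (not_lt.mpr hy)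
      set s₀ := sInf (F ⁻¹' Ici c) with hs₀
      have hmem : c ≤ F s₀ := hclosed.csInf_mem hne hbdd
      have hle : s₀ ≤ s := csInf_le hbdd hs.ge
      have hFs₀ : F s₀ = c := le_antisymm ((hmono hle).trans hs.le) hmem
      have hset : F ⁻¹' Iio c = Iio s₀ := by
        ext t
        constructor
        · intro ht
          by_contra hcon
          exact absurd (hmono (not_lt.mp hcon)) (not_le.mpr (lt_of_lt_of_le ht hmem))
        · intro ht
          by_contra hcon
          have h5 : c ≤ F t := not_lt.mp hcon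
          exact absurd (csInf_le hbdd (show t ∈ F ⁻¹' Ici c from h5)) (not_le.mpr ht)
      rw [hset, ← hFs₀, hof]
      exact measure_congr Iio_ae_eq_Iic
  refine ⟨F, hmono, hcont.measurable, ?_⟩
  have hvol : ∀ c : ℝ, (volume.restrict (Ici (0:ℝ))) (Iio c) = ENNReal.ofReal c := by
    intro c
    rw [Measure.restrict_apply measurableSet_Iio, inter_comm, Ici_inter_Iio, Real.volume_Ico]
    simp
  have hmapIio : ∀ c : ℝ, (ν.map F) (Iio c) = ENNReal.ofReal c := by
    intro c
    rw [Measure.map_apply hcont.measurable measurableSet_Iio, hIio]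
  have hlf2 : IsLocallyFiniteMeasure (ν.map F) := by
    refine ⟨fun x => ⟨Iio (x + 1), Iio_mem_nhds (by linarith), ?_⟩⟩
    rw [hmapIio]; exact ENNReal.ofReal_lt_top
  refine Measure.ext_of_Ico _ _ ?_
  intro a b hab
  rw [← Iio_sdiff_Iio, measure_sdiff (Iio_subset_Iio hab.le) measurableSet_Iio.nullMeasurableSet
    (by rw [hmapIio]; exact ENNReal.ofReal_ne_top),
    measure_sdiff (Iio_subset_Iio hab.le) measurableSet_Iio.nullMeasurableSet
    (by rw [hvol]; exact ENNReal.ofReal_ne_top), hmapIio, hmapIio, hvol, hvol]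

/-- a standard Borel space with a measure without atoms, sigma-finite and infinite,
is Borel isomorphic to the line with the Lebesgue measure of the half line -/
theorem exists_equiv_half [StandardBorelSpace X] (μ : Measure X) [SigmaFinite μ]
    [NullSingletonClass μ] (htop : μ univ = ⊤) :
    ∃ Φ : X ≃ᵐ ℝ, MeasurePreserving Φ μ (volume.restrict (Ici 0)) := by
  classical
  have hX : ¬ Countable X := by
    intro h
    have : μ univ = 0 := (Set.countable_univ).measure_zero μ
    rw [this] at htop
    exact ENNReal.zero_ne_top htop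
  have hR : ¬ Countable ℝ := not_countable_iff.mpr inferInstance
  have hI : ¬ Countable (Ico (0:ℝ) 1) := by
    rw [Set.countable_coe_iff]
    intro h
    have h1 : volume (Ico (0:ℝ) 1) = 0 := h.measure_zero _
    rw [Real.volume_Ico] at h1
    simp at h1
  have : StandardBorelSpace (Ico (0:ℝ) 1) := measurableSet_Ico.standardBorel
  let e : X ≃ᵐ Ico (0:ℝ) 1 := PolishSpace.measurableEquivOfNotCountable hX hI
  let S : ℕ → Set X := spanningSets μ
  have hS : ∀ n, MeasurableSet (S n) := measurableSet_spanningSets μ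
  have hex : ∀ x, ∃ n, x ∈ S n := fun x => by
    have : x ∈ ⋃ n, S n := by rw [iUnion_spanningSets]; trivial
    exact mem_iUnion.mp this
  let N : X → ℕ := fun x => Nat.find (hex x)
  have hN : Measurable N := measurable_find hex hS
  let j : X → ℝ := fun x => (e x : ℝ) + N x
  have hj : Measurable j := (measurable_subtype_coe.comp e.measurable).add
    (measurable_from_nat.comp hN)
  have hji : Function.Injective j := by
    intro x y hxy
    have h1 : (e x : ℝ) + N x = e y + N y := hxy
    have hx := (e x).2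
    have hy := (e y).2
    have h2 : N x = N y := by
      have h3 : ⌊(e x : ℝ) + N x⌋₊ = N x := by
        rw [Nat.floor_add_natCast hx.1, Nat.floor_eq_zero.mpr hx.2, zero_add]
      have h4 : ⌊(e y : ℝ) + N y⌋₊ = N y := by
        rw [Nat.floor_add_natCast hy.1, Nat.floor_eq_zero.mpr hy.2, zero_add]
      rw [← h3, ← h4, h1]
    rw [h2] at h1
    exact e.injective (Subtype.ext (add_right_cancel h1))
  let ν : Measure ℝ := μ.map j
  have hna : NullSingletonClass ν := by
    refine ⟨fun y => ?_⟩
    rw [Measure.map_apply hj (measurableSet_singleton y)]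
    exact (Set.Subsingleton.countable (fun a ha b hb => hji (ha.trans hb.symm))).measure_zero μ
  have hfin : ∀ t, ν (Iic t) < ⊤ := by
    intro t
    rw [Measure.map_apply hj measurableSet_Iic]
    refine lt_of_le_of_lt (measure_mono ?_) (measure_spanningSets_lt_top μ ⌊t⌋₊)
    intro x hx
    have h1 : (e x : ℝ) + N x ≤ t := hx
    have h2 : N x ≤ ⌊t⌋₊ := Nat.le_floor (by have := (e x).2.1; linarith)
    exact monotone_spanningSets μ h2 (Nat.find_spec (hex x))
  have htop2 : ν univ = ⊤ := by
    rw [Measure.map_apply hj MeasurableSet.univ, preimage_univ, htop]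
  obtain ⟨F, hF, hFm⟩ := cdf_map ν hfin htop2
  have hQ : {c | ∃ x y, x < y ∧ F x = c ∧ F y = c}.Countable := hF.countable_setOfPred_two_preimages
  set Q : Set ℝ := {c | ∃ x y, x < y ∧ F x = c ∧ F y = c} with hQdef
  have hmp : MeasurePreserving (F ∘ j) μ (volume.restrict (Ici 0)) :=
    hFm.comp ⟨hj, rfl⟩
  refine genuine μ (volume.restrict (Ici 0)) hX hR (F ∘ j) hmp ((F ∘ j) ⁻¹' Qᶜ)
    (hmp.measurable hQ.measurableSet.compl) ?_ ?_
  · rw [← preimage_compl, compl_compl, hmp.measure_preimage hQ.measurableSet.nullMeasurableSet]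
    exact hQ.measure_zero _
  · intro x hx y hy hxy
    apply hji
    have h1 : F (j x) = F (j y) := hxy
    by_contra hne
    rcases lt_or_gt_of_ne hne with h | h
    · exact hx ⟨j x, j y, h, rfl, h1.symm⟩
    · exact hx ⟨j y, j x, h, h1.symm, rfl⟩

/-- **Isomorphism with the line.** -/
theorem exists_equiv_real [StandardBorelSpace X] (μ : Measure X) [SigmaFinite μ]
    [NullSingletonClass μ] (htop : μ univ = ⊤) :
    ∃ Φ : X ≃ᵐ ℝ, MeasurePreserving Φ μ volume := by
  obtain ⟨Φ, hΦ⟩ := exists_equiv_half μ htop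
  obtain ⟨Ψ, hΨ⟩ := exists_equiv_half (volume : Measure ℝ) (by simp)
  exact ⟨Φ.trans Ψ.symm, hΦ.trans (hΨ.symm Ψ)⟩

end Pool.Agent.H750F
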