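import Mathlib

open MeasureTheory Set Filter Topology

namespace Pool.Agent.H750F

variable {𝕜 H : Type*} [RCLike 𝕜] [NormedAddCommGroup H] [InnerProductSpace 𝕜 H] [CompleteSpace H]


omit [CompleteSpace H] in
theorem mul_ap (U V : H ≃ₗᵢ[𝕜] H) (x : H) : (U * V) x = U (V x) := rfl

/-- the cyclic space -/
def Z (U : H ≃ₗᵢ[𝕜] H) (f : H) : Submodule 𝕜 H :=
  (Submodule.span 𝕜 (range fun n : ℤ => (U ^ n) f)).topologicalClosure

theorem inner_zpow (U : H ≃ₗᵢ[𝕜] H) (v w : H) (m n : ℤ) :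
    (inner 𝕜 ((U ^ m) v) ((U ^ n) w)) = (inner 𝕜 ((U ^ (m - n)) v) w) := by
  have h : (U ^ m) v = (U ^ n) ((U ^ (m - n)) v) := by
    rw [← mul_ap, ← zpow_add]
    congr 2
    ring
  rw [h, LinearIsometryEquiv.inner_map_map]

/-- a correlation sequence tending to zero gives weak convergence to zero -/
theorem weak_of (U : H ≃ₗᵢ[𝕜] H) (v : H)
    (hv : Tendsto (fun n : ℕ => (inner 𝕜 ((U ^ (n : ℤ)) v) v)) atTop (𝓝 0)) (u : H) :
    Tendsto (fun n : ℕ => (inner 𝕜 ((U ^ (n : ℤ)) v) u)) atTop (𝓝 0) := by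
  set K : Submodule 𝕜 H := Z U v with hK
  have : CompleteSpace K := (Submodule.isClosed_topologicalClosure _).completeSpace_coe
  have hbase : ∀ m : ℤ, Tendsto (fun n : ℕ => (inner 𝕜 ((U ^ (n : ℤ)) v) ((U ^ m) v))) atTop (𝓝 0) := by
    intro m
    simp only [inner_zpow]
    have h1 : Tendsto (fun n : ℕ => ((n : ℤ) - m).toNat) atTop atTop := by
      rw [tendsto_atTop_atTop]
      intro b
      refine ⟨(b + m.natAbs), fun a ha => ?_⟩
      omega
    have h2 := hv.comp h1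
    refine h2.congr' ?_
    filter_upwards [eventually_ge_atTop m.natAbs] with n hn
    have : (((n : ℤ) - m).toNat : ℤ) = n - m := by omega
    simp only [Function.comp, this]
  have hspan : ∀ w ∈ Submodule.span 𝕜 (range fun n : ℤ => (U ^ n) v),
      Tendsto (fun n : ℕ => (inner 𝕜 ((U ^ (n : ℤ)) v) w)) atTop (𝓝 0) := by
    intro w hw
    induction hw using Submodule.span_induction with
    | mem x hx => obtain ⟨m, rfl⟩ := hx; exact hbase m
    | zero => simp
    | add x y _ _ hx hy => simpa [inner_add_right] using hx.add hy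
    | smul a x _ hx => simpa [inner_smul_right] using hx.const_mul a
  have hcl : ∀ w ∈ K, Tendsto (fun n : ℕ => (inner 𝕜 ((U ^ (n : ℤ)) v) w)) atTop (𝓝 0) := by
    intro w hw
    rw [Metric.tendsto_atTop]
    intro ε hε
    have hw' : w ∈ closure ((Submodule.span 𝕜 (range fun n : ℤ => (U ^ n) v) : Submodule 𝕜 H) : Set H) := hw
    obtain ⟨w', hw', hd⟩ := Metric.mem_closure_iff.mp hw' (ε / (2 * (‖v‖ + 1))) (by positivity)
    obtain ⟨N, hN⟩ := (Metric.tendsto_atTop.mp (hspan w' hw')) (ε / 2) (by positivity)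
    refine ⟨N, fun n hn => ?_⟩
    have h1 := hN n hn
    rw [dist_zero_right] at h1 ⊢
    have h2 : (inner 𝕜 ((U ^ (n : ℤ)) v) w) = (inner 𝕜 ((U ^ (n : ℤ)) v) w') + (inner 𝕜 ((U ^ (n : ℤ)) v) (w - w')) := by
      rw [← inner_add_right]; congr 1; abel
    have h3 : ‖(inner 𝕜 ((U ^ (n : ℤ)) v) (w - w'))‖ ≤ ‖v‖ * (ε / (2 * (‖v‖ + 1))) := by
      refine (norm_inner_le_norm _ _).trans ?_
      rw [LinearIsometryEquiv.norm_map]
      refine mul_le_mul_of_nonneg_left ?_ (norm_nonneg _)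
      rw [← dist_eq_norm]; exact hd.le
    have h4 : ‖v‖ * (ε / (2 * (‖v‖ + 1))) ≤ ε / 2 := by
      rw [mul_div_assoc', div_le_div_iff₀ (by positivity) (by norm_num)]
      nlinarith [norm_nonneg v]
    rw [h2]
    calc _ ≤ ‖(inner 𝕜 ((U ^ (n : ℤ)) v) w')‖ + ‖(inner 𝕜 ((U ^ (n : ℤ)) v) (w - w'))‖ := norm_add_le _ _
      _ < ε / 2 + ε / 2 := by linarith
      _ = ε := by ring
  have hmemK : ∀ n : ℤ, (U ^ n) v ∈ K := fun n =>
    Submodule.le_topologicalClosure _ (Submodule.subset_span ⟨n, rfl⟩)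
  have hdec : ∀ n : ℕ, (inner 𝕜 ((U ^ (n : ℤ)) v) u) = (inner 𝕜 ((U ^ (n : ℤ)) v) (K.starProjection u)) := by
    intro n
    have h1 : u - K.starProjection u ∈ Kᗮ := K.sub_starProjection_mem_orthogonal u
    have h2 := (Submodule.mem_orthogonal K _).mp h1 _ (hmemK n)
    rw [inner_sub_right, sub_eq_zero] at h2
    exact h2
  simp only [hdec]
  exact hcl _ (K.starProjection_apply_mem u)

/-- shift equation -/
theorem zero_of_shift (b : ℤ → 𝕜) (n : ℕ) (hn : 0 < n)
    (hb : ∀ m : ℤ, Tendsto (fun k : ℕ => b (m + k)) atTop (𝓝 0))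
    (h : ∀ m, b m + b (m + n) = 0) : ∀ m, b m = 0 := by
  intro m
  have h1 : ∀ k : ℕ, ‖b (m + (n * k : ℕ))‖ = ‖b m‖ := by
    intro k
    induction k with
    | zero => simp
    | succ k ih =>
      have h2 := h (m + (n * k : ℕ))
      have h3 : b (m + (n * k : ℕ) + n) = - b (m + (n * k : ℕ)) := by
        rw [eq_neg_iff_add_eq_zero, add_comm]; exact h2
      have h4 : m + ((n * (k + 1) : ℕ) : ℤ) = m + (n * k : ℕ) + n := by push_cast; ring
      rw [h4, h3, norm_neg, ih]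
  have h5 : Tendsto (fun k : ℕ => n * k) atTop atTop :=
    tendsto_id.const_mul_atTop' hn
  have h6 := ((hb m).comp h5).norm
  simp only [Function.comp] at h6
  simp only [h1, norm_zero] at h6
  have := tendsto_nhds_unique h6 tendsto_const_nhds
  rwa [eq_comm, norm_eq_zero] at this

/-- `prodU ns v = ∏ (1+U^n) v`. -/
def prodU (U : H ≃ₗᵢ[𝕜] H) (ns : List ℕ) (v : H) : H :=
  ns.foldr (fun n w => w + (U ^ (n : ℤ)) w) v

theorem zpow_prodU (U : H ≃ₗᵢ[𝕜] H) (ns : List ℕ) (v : H) (m : ℤ) :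
    (U ^ m) (prodU U ns v) = prodU U ns ((U ^ m) v) := by
  induction ns with
  | nil => rfl
  | cons n ns ih =>
    show (U ^ m) (prodU U ns v + (U ^ (n : ℤ)) (prodU U ns v)) =
      prodU U ns ((U ^ m) v) + (U ^ (n : ℤ)) (prodU U ns ((U ^ m) v))
    rw [map_add, ← ih]
    congr 1
    rw [← mul_ap, ← mul_ap, ← zpow_add, ← zpow_add,
      add_comm]

theorem zero_of_prod (U : H ≃ₗᵢ[𝕜] H) (u : H) (ns : List ℕ) (hns : ∀ n ∈ ns, 0 < n) (v : H)
    (hw : ∀ w, ∀ m : ℤ, Tendsto (fun k : ℕ => (inner 𝕜 ((U ^ (m + k)) v) w)) atTop (𝓝 0))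
    (h : ∀ m : ℤ, (inner 𝕜 ((U ^ m) (prodU U ns v)) u) = 0) : ∀ m : ℤ, (inner 𝕜 ((U ^ m) v) u) = 0 := by
  have hw' : ∀ ns : List ℕ, ∀ w, ∀ m : ℤ,
      Tendsto (fun k : ℕ => (inner 𝕜 ((U ^ (m + k)) (prodU U ns v)) w)) atTop (𝓝 0) := by
    intro ns
    induction ns with
    | nil => exact hw
    | cons n ns ih =>
      intro w m
      have h1 := (ih w m).add (ih w (m + n))
      rw [add_zero] at h1
      refine h1.congr fun k => ?_
      rw [← inner_add_left]
      congr 1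
      show _ = (U ^ (m + (k : ℤ))) (prodU U ns v + (U ^ (n : ℤ)) (prodU U ns v))
      rw [map_add, ← mul_ap (U ^ (m + (k : ℤ))) (U ^ (n : ℤ)), ← zpow_add]
      congr 3
      ring
  induction ns with
  | nil => exact h
  | cons n ns ih =>
    refine ih (fun k hk => hns k (List.mem_cons_of_mem _ hk)) ?_
    refine zero_of_shift (fun m => (inner 𝕜 ((U ^ m) (prodU U ns v)) u)) n (hns n List.mem_cons_self)
      (fun m => hw' ns u m) ?_
    intro m
    have h2 := h m
    have h3 : (U ^ m) (prodU U (n :: ns) v) =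
        (U ^ m) (prodU U ns v) + (U ^ (m + (n : ℤ))) (prodU U ns v) := by
      show (U ^ m) (prodU U ns v + (U ^ (n : ℤ)) (prodU U ns v)) = _
      rw [map_add, ← mul_ap, ← zpow_add]
    rw [h3, inner_add_left] at h2
    exact h2

/-- **The cyclic space is everything.** -/
theorem Z_eq_top (U : H ≃ₗᵢ[𝕜] H) (f : H) {ι : Type*} (v : ι → H) (ns : ι → List ℕ)
    (hns : ∀ i, ∀ n ∈ ns i, 0 < n)
    (hf : Tendsto (fun n : ℕ => (inner 𝕜 ((U ^ (n : ℤ)) f) f)) atTop (𝓝 0))
    (hpos : ∀ i, ∀ n : ℕ, ‖(inner 𝕜 ((U ^ (n : ℤ)) (v i)) (v i))‖ ≤ ‖(inner 𝕜 ((U ^ (n : ℤ)) f) f)‖)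
    (hmem : ∀ i, prodU U (ns i) (v i) ∈ Z U f)
    (hdense : (Submodule.span 𝕜 (range fun p : ι × ℤ => (U ^ p.2) (v p.1))).topologicalClosure = ⊤) :
    Z U f = ⊤ := by
  have : CompleteSpace (Z U f) := (Submodule.isClosed_topologicalClosure _).completeSpace_coe
  have hinv : ∀ m : ℤ, ∀ w ∈ Z U f, (U ^ m) w ∈ Z U f := by
    intro m w hw
    have hmap : MapsTo (U ^ m) ((Submodule.span 𝕜 (range fun n : ℤ => (U ^ n) f) : Submodule 𝕜 H) : Set H)
        ((Submodule.span 𝕜 (range fun n : ℤ => (U ^ n) f) : Submodule 𝕜 H) : Set H) := by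
      intro x hx
      induction hx using Submodule.span_induction with
      | mem x hx =>
        obtain ⟨n, rfl⟩ := hx
        refine Submodule.subset_span ⟨m + n, ?_⟩
        simp only [zpow_add, mul_ap]
      | zero => rw [map_zero]; exact Submodule.zero_mem _
      | add x y _ _ hx hy => rw [map_add]; exact Submodule.add_mem _ hx hy
      | smul a x _ hx =>
        rw [LinearIsometryEquiv.map_smul]; exact Submodule.smul_mem _ _ hx
    exact hmap.closure (U ^ m).continuous hw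
  rw [← Submodule.orthogonal_eq_bot_iff, Submodule.eq_bot_iff]
  intro u hu
  have hzero : ∀ i, ∀ m : ℤ, (inner 𝕜 ((U ^ m) (v i)) u) = 0 := by
    intro i
    have hvi : Tendsto (fun n : ℕ => (inner 𝕜 ((U ^ (n : ℤ)) (v i)) (v i))) atTop (𝓝 0) := by
      rw [tendsto_zero_iff_norm_tendsto_zero]
      exact squeeze_zero (fun _ => norm_nonneg _) (hpos i) (by simpa using hf.norm)
    refine zero_of_prod U u (ns i) (hns i) (v i) ?_ ?_
    · intro w m
      have h1 := weak_of U (v i) hvi ((U ^ (-m)) w)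
      refine h1.congr fun k => ?_
      rw [inner_zpow]
      have h2 := inner_zpow U (v i) w (m + k) 0
      rw [zpow_zero, sub_zero] at h2
      have h3 : (w : H) = (1 : H ≃ₗᵢ[𝕜] H) w := rfl
      rw [sub_neg_eq_add, add_comm (k : ℤ) m]
    · intro m
      exact (Submodule.mem_orthogonal _ _).mp hu _ (hinv m _ (hmem i))
  have hspan : ∀ w ∈ (Submodule.span 𝕜 (range fun p : ι × ℤ => (U ^ p.2) (v p.1))).topologicalClosure,
      (inner 𝕜 w u) = 0 := by
    intro w hw
    have hw' : w ∈ closure ((Submodule.span 𝕜 (range fun p : ι × ℤ => (U ^ p.2) (v p.1)) :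
      Submodule 𝕜 H) : Set H) := hw
    have hcl : IsClosed {w : H | (inner 𝕜 w u) = 0} :=
      isClosed_eq (continuous_id.inner continuous_const) continuous_const
    refine closure_minimal ?_ hcl hw'
    intro x hx
    induction hx using Submodule.span_induction with
    | mem x hx => obtain ⟨⟨i, m⟩, rfl⟩ := hx; exact hzero i m
    | zero => simp
    | add x y _ _ hx hy =>
      have h1 : (inner 𝕜 x u) = 0 := hx
      have h2 : (inner 𝕜 y u) = 0 := hy
      show (inner 𝕜 (x + y) u) = 0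
      rw [inner_add_left, h1, h2, add_zero]
    | smul a x _ hx =>
      have h1 : (inner 𝕜 x u) = 0 := hx
      show (inner 𝕜 (a • x) u) = 0
      rw [inner_smul_left, h1, mul_zero]
  have := hspan u (by rw [hdense]; trivial)
  exact inner_self_eq_zero.mp this

end Pool.Agent.H750F
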